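import Mathlib
set_option autoImplicit false
namespace Pool.Agent.H.MP_aab88c_gt
open Set Topology Filter Finsupp Pointwise
universe u
variable {X : Type u} [MetricSpace X]

def S (φ : X → ℝ) : Set (X →₀ ℝ) :=
  {v | ∃ x y a b, |a| ≤ 1 ∧ |a + b| ≤ φ x ∧ dist y x ≤ φ x ∧ v = single x a + single y b}

def Wd (s : ℕ → X → ℝ) : Set (X →₀ ℝ) :=
  {v | ∃ (N : ℕ) (f : ℕ → X →₀ ℝ), (∀ n, f n ∈ S (s n)) ∧ v = ∑ n ∈ Finset.range N, f n}

def Pos (s : ℕ → X → ℝ) : Prop := ∀ n x, 0 < s n x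

lemma S_mono {φ ψ : X → ℝ} (h : ∀ x, φ x ≤ ψ x) : S φ ⊆ S ψ :=
  fun _ ⟨x, y, a, b, h1, h2, h3, h4⟩ => ⟨x, y, a, b, h1, h2.trans (h x), h3.trans (h x), h4⟩

lemma W_mono {s t : ℕ → X → ℝ} (h : ∀ n x, s n x ≤ t n x) : Wd s ⊆ Wd t :=
  fun _ ⟨N, f, h1, h2⟩ => ⟨N, f, fun n => S_mono (h n) (h1 n), h2⟩

lemma W_smul {s : ℕ → X → ℝ} {v : X →₀ ℝ} (h : v ∈ Wd s) {t : ℝ} (ht : |t| ≤ 1) : t • v ∈ Wd s := by
  obtain ⟨N, f, h1, rfl⟩ := h
  refine ⟨N, fun n => t • f n, fun n => ?_, Finset.smul_sum⟩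
  obtain ⟨x, y, a, b, h2, h3, h4, h5⟩ := h1 n
  refine ⟨x, y, t * a, t * b, ?_, ?_, h4, by simp [h5]⟩
  · rw [abs_mul]; exact mul_le_one₀ ht (abs_nonneg _) h2
  · rw [← mul_add, abs_mul]; exact (mul_le_of_le_one_left (abs_nonneg _) ht).trans h3

variable [Nonempty X]

lemma zero_S {φ : X → ℝ} (h : ∀ x, 0 < φ x) : 0 ∈ S φ :=
  ⟨Classical.arbitrary X, Classical.arbitrary X, 0, 0, by simp, by simp [(h _).le],
    by simp [(h _).le], by simp⟩

lemma S_W {s : ℕ → X → ℝ} (h : Pos s) : S (s 0) ⊆ Wd s := fun v hv =>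
  ⟨1, fun n => if n = 0 then v else 0, fun n => by
    dsimp only
    split_ifs with h1
    exacts [h1 ▸ hv, zero_S (h n)], by simp⟩

lemma W_add {s : ℕ → X → ℝ} (h : Pos s) : ∃ t, Pos t ∧ Wd t + Wd t ⊆ Wd s := by
  refine ⟨fun n x => min (s (2 * n) x) (s (2 * n + 1) x), fun n x => lt_min (h _ _) (h _ _), ?_⟩
  rintro _ ⟨_, ⟨N, f, h1, rfl⟩, _, ⟨M, g, h2, rfl⟩, rfl⟩
  have h3 (f : ℕ → X →₀ ℝ) (N K : ℕ) (h : N ≤ K) :
      ∑ n ∈ Finset.range K, (if n < N then f n else 0) = ∑ n ∈ Finset.range N, f n := by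
    rw [← Finset.sum_filter]
    congr 1
    ext n
    simp only [Finset.mem_filter, Finset.mem_range]
    omega
  refine ⟨2 * (N + M), fun n => if n % 2 = 0 then (if n / 2 < N then f (n / 2) else 0)
    else (if n / 2 < M then g (n / 2) else 0), fun n => ?_, ?_⟩
  · dsimp only
    split_ifs with h4
    · exact S_mono (fun x => (min_le_left _ _).trans_eq (by congr; omega)) (h1 _)
    · exact zero_S (h n)
    · exact S_mono (fun x => (min_le_right _ _).trans_eq (by congr; omega)) (h2 _)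
    · exact zero_S (h n)
  · simp only
    rw [← h3 f N (N + M) (by omega), ← h3 g M (N + M) (by omega)]
    generalize N + M = K
    induction K with
    | zero => simp
    | succ K ih =>
      rw [mul_add, mul_one, Finset.sum_range_succ, Finset.sum_range_succ, Finset.sum_range_succ,
        Finset.sum_range_succ, ← ih, if_pos (c := 2 * K % 2 = 0) (by omega),
        if_neg (c := (2 * K + 1) % 2 = 0) (by omega), show 2 * K / 2 = K by omega,
        show (2 * K + 1) / 2 = K by omega]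
      abel

noncomputable def FB (X : Type u) [MetricSpace X] [Nonempty X] : ModuleFilterBasis ℝ (X →₀ ℝ) where
  sets := Wd '' {s | Pos s}
  nonempty := ⟨_, fun _ _ => 1, fun _ _ => one_pos, rfl⟩
  inter_sets := by
    rintro _ _ ⟨s, hs, rfl⟩ ⟨t, ht, rfl⟩
    exact ⟨_, ⟨fun n x => min (s n x) (t n x), fun n x => lt_min (hs _ _) (ht _ _), rfl⟩,
      subset_inter (W_mono fun _ _ => min_le_left _ _) (W_mono fun _ _ => min_le_right _ _)⟩
  zero' := by
    rintro _ ⟨s, hs, rfl⟩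
    exact S_W hs (zero_S (hs 0))
  add' := by
    rintro _ ⟨s, hs, rfl⟩
    obtain ⟨t, ht, h⟩ := W_add hs
    exact ⟨_, ⟨t, ht, rfl⟩, h⟩
  neg' := by
    rintro _ ⟨s, hs, rfl⟩
    exact ⟨_, ⟨s, hs, rfl⟩, fun v hv => by simpa using W_smul hv (t := -1) (by simp)⟩
  conj' x U hU := ⟨U, hU, fun v hv => by simpa using hv⟩
  smul' := by
    rintro _ ⟨s, hs, rfl⟩
    refine ⟨Metric.closedBall 0 1, Metric.closedBall_mem_nhds _ one_pos, _, ⟨s, hs, rfl⟩, ?_⟩
    rintro _ ⟨t, ht, v, hv, rfl⟩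
    exact W_smul hv (by simpa using ht)
  smul_left' := by
    rintro r _ ⟨s, hs, rfl⟩
    have (k : ℕ) : ∀ s : ℕ → X → ℝ, Pos s → ∃ t, Pos t ∧ ∀ r : ℝ, |r| ≤ 2 ^ k → ∀ v ∈ Wd t,
        r • v ∈ Wd s := by
      induction k with
      | zero => exact fun s hs => ⟨s, hs, fun r hr v hv => W_smul hv (by simpa using hr)⟩
      | succ k ih =>
        intro s hs
        obtain ⟨t, ht, h⟩ := W_add hs
        obtain ⟨t', ht', h'⟩ := ih t ht
        refine ⟨t', ht', fun r hr v hv => ?_⟩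
        have := h' (r / 2) (by rw [abs_div, abs_two, div_le_iff₀ two_pos, ← pow_succ]; exact hr) v hv
        rw [← add_halves r, add_smul]
        exact h (add_mem_add this this)
    obtain ⟨k, hk⟩ := pow_unbounded_of_one_lt |r| one_lt_two
    obtain ⟨t, ht, h⟩ := this k s hs
    exact ⟨_, ⟨t, ht, rfl⟩, h r hk.le⟩
  smul_right' := by
    intro m
    induction m using Finsupp.induction_linear with
    | zero =>
      rintro _ ⟨s, hs, rfl⟩
      exact .of_forall fun _ => by simpa using S_W hs (zero_S (hs 0))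
    | add f g h1 h2 =>
      rintro _ ⟨s, hs, rfl⟩
      obtain ⟨t, ht, h⟩ := W_add hs
      filter_upwards [h1 ⟨t, ht, rfl⟩, h2 ⟨t, ht, rfl⟩] with r h3 h4
      rw [smul_add]
      exact h (add_mem_add h3 h4)
    | single x c =>
      rintro _ ⟨s, hs, rfl⟩
      have : ∀ᶠ r in 𝓝 (0 : ℝ), |r * c| < s 0 x :=
        ContinuousAt.eventually_lt (by fun_prop) continuousAt_const (by simpa using hs 0 x)
      filter_upwards [this] with r hr
      exact S_W hs ⟨x, x, 0, r * c, by simp, by simpa using hr.le, by simp [(hs 0 x).le], by simp⟩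

lemma single_cont : Continuous[_, (FB X).topology] fun x : X => single x (1 : ℝ) := by
  letI := (FB X).topology
  refine continuous_iff_continuousAt.2 fun x =>
    ((FB X).toAddGroupFilterBasis.nhds_hasBasis _).tendsto_right_iff.2 ?_
  rintro _ ⟨s, hs, rfl⟩
  filter_upwards [Metric.closedBall_mem_nhds x (hs 0 x)] with y hy
  exact ⟨_, S_W hs ⟨x, y, -1, 1, by simp, by simp [(hs 0 x).le], hy, rfl⟩, by simp⟩

omit [Nonempty X] in
lemma main {W : Type*} [AddCommGroup W] [Module ℝ W] (Y : Set X) (J : X → W) (O : ℕ → Set W)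
    (hO : ∀ n, ∀ v ∈ O (n + 1), ∀ w ∈ O (n + 1), v + w ∈ O n) (h0 : ∀ n, 0 ∈ O n)
    (s : ℕ → X → ℝ) (s0 : Pos s) (s1 : ∀ n x, s n x ≤ 1)
    (s2 : ∀ n x y, s n x ≤ s n y + dist x y) (s3 : ∀ m n x, m < n → s n x ≤ s m x / 18)
    (s4 : ∀ n c, ∀ y ∈ Y, ∀ z ∈ Y, ∀ a b : ℝ, dist y c ≤ s n c / 2 → dist z c ≤ s n c / 2 →
      |a| ≤ 2 → |a + b| ≤ s n c / 2 → a • J y + b • J z ∈ O (n + 1)) (c : ℕ → X) (N : ℕ) :
    ∀ (x y : ℕ → X) (a b : ℕ → ℝ) (w : W), (∀ m < N, |a m| ≤ 1 + (1 / 2) ^ N ∧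
      |a m + b m| ≤ ((1 / 2) ^ m + (1 / 2) ^ N) / 4 * s m (c m) ∧
      dist (x m) (c m) ≤ ((1 / 2) ^ m + (1 / 2) ^ N) / 4 * s m (c m) ∧
      dist (y m) (c m) ≤ ((1 / 2) ^ m + (1 / 2) ^ N) / 4 * s m (c m)) →
      (∀ F : X → W, EqOn F J Y → ∑ m ∈ Finset.range N, (a m • F (x m) + b m • F (y m)) = w) →
      ∀ o ∈ O N, w + o ∈ O 0 := by
  classical
  induction N with
  | zero =>
    intro x y a b w _ h o ho
    rw [← h J fun _ _ => rfl]
    simpa using ho
  | succ n ih =>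
  intro x y a b w h1 h2 o ho
  have hp (k : ℕ) : (0 : ℝ) < (1 / 2) ^ k := by positivity
  have hp1 (k : ℕ) : ((1 : ℝ) / 2) ^ k ≤ 1 := pow_le_one₀ (by norm_num) (by norm_num)
  have hh (m k : ℕ) : (((1 : ℝ) / 2) ^ m + (1 / 2) ^ k) / 4 * s m (c m) ≤ s m (c m) / 2 := by
    nlinarith [hp1 m, hp1 k, s0 m (c m)]
  have hK (m : ℕ) (hm : m < n) (z : X) (h3 : dist z (c m) ≤ s m (c m) / 2)
      (h4 : dist z (c n) ≤ s n (c n) / 2) :
      ((1 / 2) ^ m + (1 / 2) ^ (n + 1)) / 4 * s m (c m) +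
        2 * (((1 / 2) ^ n + (1 / 2) ^ (n + 1)) / 4 * s n (c n)) ≤
          ((1 / 2) ^ m + (1 / 2) ^ n) / 4 * s m (c m) := by
    have := s2 n (c n) z
    have := s2 m z (c m)
    have := s3 m n z hm
    rw [dist_comm] at h4
    have h5 : s n (c n) ≤ s m (c m) / 6 := by linarith
    rw [pow_succ]
    nlinarith [mul_le_mul_of_nonneg_left h5 (hp n).le]
  have hm (m : ℕ) : (((1 : ℝ) / 2) ^ m + (1 / 2) ^ (n + 1)) / 4 * s m (c m) ≤
      ((1 / 2) ^ m + (1 / 2) ^ n) / 4 * s m (c m) := by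
    rw [pow_succ]
    nlinarith [mul_pos (hp n) (s0 m (c m))]
  have hq : 1 + ((1 : ℝ) / 2) ^ (n + 1) ≤ 1 + (1 / 2) ^ n := by
    rw [pow_succ]
    linarith [hp n]
  obtain ⟨e1, e2, e3, e4⟩ := h1 n n.lt_succ_self
  obtain ⟨σ, σ1, σ2, σ3⟩ : ∃ σ : X → X, (∀ z ∈ Y, σ z = z) ∧
      (∀ z, σ z = z ∨ (z = x n ∨ z = y n) ∧ (σ z = x n ∨ σ z = y n)) ∧
      (σ (x n) ∈ Y ∧ σ (y n) ∈ Y ∨ σ (x n) = σ (y n) ∧ σ (y n) ∉ Y) := by
    by_cases h3 : x n ∈ Y
    · by_cases h4 : y n ∈ Y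
      · exact ⟨id, fun _ _ => rfl, fun _ => Or.inl rfl, Or.inl ⟨h3, h4⟩⟩
      · exact ⟨fun z => if z = y n then x n else z, by grind, by grind, by grind⟩
    · exact ⟨fun z => if z = x n then y n else z, by grind, by grind, by grind⟩
  have σ4 (m : ℕ) (hmn : m < n) (z : X)
      (h : dist z (c m) ≤ ((1 / 2) ^ m + (1 / 2) ^ (n + 1)) / 4 * s m (c m)) :
      dist (σ z) (c m) ≤ ((1 / 2) ^ m + (1 / 2) ^ n) / 4 * s m (c m) := by
    rcases σ2 z with h3 | ⟨h3, h4⟩
    · rw [h3]; exact h.trans (hm m)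
    · have h5 : dist z (c n) ≤ _ := h3.elim (· ▸ e3) (· ▸ e4)
      have h6 : dist (σ z) (c n) ≤ _ := h4.elim (· ▸ e3) (· ▸ e4)
      have := hK m hmn z (h.trans (hh _ _)) (h5.trans (hh _ _))
      linarith [dist_triangle4_right (σ z) (c m) (c n) z, dist_triangle (σ z) z (c m),
        dist_triangle_right (σ z) z (c n)]
  have σ5 (z : X) (h : z = x n ∨ z = y n) : dist (σ z) (c n) ≤ s n (c n) / 2 := by
    refine le_trans ?_ (hh n (n + 1))
    rcases σ2 z with h3 | ⟨-, h4⟩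
    · rw [h3]; exact h.elim (· ▸ e3) (· ▸ e4)
    · exact h4.elim (· ▸ e3) (· ▸ e4)
  have h3 (F : X → W) (hF : EqOn F J Y) :
      ∑ m ∈ Finset.range n, (a m • F (σ (x m)) + b m • F (σ (y m))) +
        (a n • F (σ (x n)) + b n • F (σ (y n))) = w := by
    rw [← h2 (F ∘ σ) fun z hz => by rw [Function.comp_apply, σ1 z hz, hF hz], Finset.sum_range_succ]
    rfl
  have h4 (m : ℕ) (hmn : m < n) := h1 m (hmn.trans n.lt_succ_self)
  have h5 (m : ℕ) (hmn : m < n) := And.intro ((h4 m hmn).1.trans hq) (And.intro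
    ((h4 m hmn).2.1.trans (hm m)) (And.intro (σ4 m hmn _ (h4 m hmn).2.2.1)
      (σ4 m hmn _ (h4 m hmn).2.2.2)))
  rcases σ3 with ⟨h6, h7⟩ | ⟨h6, h7⟩
  · have := ih (σ ∘ x) (σ ∘ y) a b (w - (a n • J (σ (x n)) + b n • J (σ (y n)))) h5
      (fun F hF => by rw [← h3 F hF, hF h6, hF h7, add_sub_cancel_right]; rfl) _
      (hO n _ (s4 n (c n) _ h6 _ h7 _ _ (σ5 _ (Or.inl rfl)) (σ5 _ (Or.inr rfl))
        (by linarith [hp1 (n + 1)]) (e2.trans (hh _ _))) o ho)
    rwa [← add_assoc, sub_add_cancel] at this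
  have ho' : o ∈ O n := by simpa using hO n o ho 0 (h0 _)
  have h8 := σ5 _ (Or.inr rfl)
  simp only [h6, ← add_smul] at h3
  have h9 (m : ℕ) (hmn : m < n) (h : dist (σ (y n)) (c m) ≤ s m (c m) / 2) :
      |a m + b m + (a n + b n)| ≤ ((1 / 2) ^ m + (1 / 2) ^ n) / 4 * s m (c m) := by
    linarith [abs_add_le (a m + b m) (a n + b n), hK m hmn _ h h8, (h4 m hmn).2.1,
      abs_nonneg (a n + b n)]
  by_cases h10 : ∃ m < n, σ (x m) = σ (y n)
  · obtain ⟨m, hmn, h10⟩ := h10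
    refine ih (σ ∘ x) (σ ∘ y) (fun k => a k + if k = m then a n + b n else 0) b w (fun k hk => ?_)
      (fun F hF => ?_) o ho'
    · split_ifs with h
      · subst h
        refine ⟨?_, ?_, (h5 k hk).2.2⟩
        · have := (h4 k hk).1
          rw [pow_succ] at this e2
          nlinarith [abs_add_le (a k) (a n + b n), hp n, s1 n (c n)]
        · rw [add_right_comm]
          exact h9 k hk (h10 ▸ (h5 k hk).2.2.1.trans (hh _ _))
      · rw [add_zero]
        exact h5 k hk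
    · rw [← h3 F hF, ← h10]
      simp [add_smul, Finset.sum_add_distrib, ite_smul, hmn]
      abel
  by_cases h11 : ∃ m < n, σ (y m) = σ (y n)
  · obtain ⟨m, hmn, h11⟩ := h11
    refine ih (σ ∘ x) (σ ∘ y) a (fun k => b k + if k = m then a n + b n else 0) w (fun k hk => ?_)
      (fun F hF => ?_) o ho'
    · split_ifs with h
      · subst h
        refine ⟨(h5 k hk).1, ?_, (h5 k hk).2.2⟩
        rw [← add_assoc]
        exact h9 k hk (h11 ▸ (h5 k hk).2.2.2.trans (hh _ _))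
      · rw [add_zero]
        exact h5 k hk
    · rw [← h3 F hF, ← h11]
      simp [add_smul, Finset.sum_add_distrib, ite_smul, hmn]
      abel
  push Not at h10 h11
  refine ih (σ ∘ x) (σ ∘ y) a b w h5 (fun F hF => ?_) o ho'
  rw [← h3 (Function.update F (σ (y n)) 0) fun z hz => by
    rw [Function.update_of_ne (by rintro rfl; exact h7 hz), hF hz], Function.update_self, smul_zero,
    add_zero]
  refine Finset.sum_congr rfl fun m hm => ?_
  rw [Function.update_of_ne (h10 m (Finset.mem_range.1 hm)),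
    Function.update_of_ne (h11 m (Finset.mem_range.1 hm))]
  rfl

omit [Nonempty X] in
lemma radius {W : Type*} [AddCommGroup W] [Module ℝ W] [TopologicalSpace W]
    [IsTopologicalAddGroup W] [ContinuousSMul ℝ W] {Y : Set X} (hY : IsClosed Y) {J : X → W}
    (hJ : ContinuousOn J Y) {O : Set W} (hO : O ∈ 𝓝 0) : ∃ s : X → ℝ, (∀ x, 0 < s x) ∧
      (∀ x, s x ≤ 1) ∧ (∀ x y, s x ≤ s y + dist x y) ∧ ∀ c, ∀ y ∈ Y, ∀ z ∈ Y, ∀ a b : ℝ,
        dist y c < s c → dist z c < s c → |a| ≤ 2 → |a + b| < s c → a • J y + b • J z ∈ O := by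
  let G : X → Set ℝ := fun c => {δ | δ ≤ 1 ∧ ∀ y ∈ Y, ∀ z ∈ Y, ∀ a b : ℝ,
    dist y c < δ → dist z c < δ → |a| ≤ 2 → |a + b| < δ → a • J y + b • J z ∈ O}
  have h1 (c) : BddAbove (G c) := ⟨1, fun _ h => h.1⟩
  have h2 (c) : ∃ δ ∈ G c, 0 < δ := by
    by_cases hc : c ∈ Y
    · have hj : Continuous fun y : Y => J y := continuousOn_iff_continuous_restrict.1 hJ
      have := (isCompact_Icc (a := (-2 : ℝ)) (b := 2)).eventually_forall_of_forall_eventually
        (x₀ := ((⟨c, hc⟩, ⟨c, hc⟩, 0) : Y × Y × ℝ))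
        (P := fun p a => a • J p.1 + (p.2.2 - a) • J p.2.1 ∈ O) fun a _ =>
          ContinuousAt.preimage_mem_nhds (f := fun z : (Y × Y × ℝ) × ℝ =>
            z.2 • J z.1.1 + (z.1.2.2 - z.2) • J z.1.2.1) (Continuous.continuousAt
              ((continuous_snd.smul (hj.comp (by fun_prop))).add (Continuous.smul (by fun_prop)
                (hj.comp (by fun_prop))))) (by simpa using hO)
      obtain ⟨δ, h2, h3⟩ := Metric.eventually_nhds_iff.1 this
      refine ⟨min δ 1, ⟨min_le_right _ _, fun y hy z hz a b h4 h5 h6 h7 => ?_⟩, lt_min h2 one_pos⟩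
      simpa using @h3 (⟨y, hy⟩, ⟨z, hz⟩, a + b) (by
        simp only [Prod.dist_eq, Subtype.dist_eq, max_lt_iff, Real.dist_eq, sub_zero]
        exact ⟨(lt_min_iff.1 h4).1, (lt_min_iff.1 h5).1, (lt_min_iff.1 h7).1⟩) a (abs_le.1 h6)
    · obtain ⟨δ, h2, h3⟩ := Metric.isOpen_iff.1 hY.isOpen_compl c hc
      exact ⟨min δ 1, ⟨min_le_right _ _, fun y hy _ _ _ _ h => (h3 (lt_min_iff.1 h).1 hy).elim⟩,
        lt_min h2 one_pos⟩
  have h3 (c) : (G c).Nonempty := (h2 c).imp fun _ h => h.1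
  refine ⟨fun c => sSup (G c), fun c => ?_, fun c => csSup_le (h3 c) fun _ h => h.1,
    fun x y => csSup_le (h3 x) fun δ h => sub_le_iff_le_add.1 (le_csSup (h1 y) ⟨?_, ?_⟩), ?_⟩
  · obtain ⟨δ, h4, h5⟩ := h2 c
    exact h5.trans_le (le_csSup (h1 c) h4)
  · linarith [h.1, dist_nonneg (x := x) (y := y)]
  · intro p hp q hq a b h4 h5 h6 h7
    exact h.2 p hp q hq a b (by linarith [dist_triangle_right p x y, dist_comm x y])
      (by linarith [dist_triangle_right q x y, dist_comm x y]) h6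
      (by linarith [dist_nonneg (x := x) (y := y)])
  · intro c y hy z hz a b h4 h5 h6 h7
    obtain ⟨δ, h8, h9⟩ := exists_lt_of_lt_csSup (h3 c) (max_lt h4 (max_lt h5 h7))
    simp only [max_lt_iff] at h9
    exact h8.2 y hy z hz a b h9.1 h9.2.1 h6 h9.2.2

lemma key {W : Type*} [AddCommGroup W] [Module ℝ W] [TopologicalSpace W]
    [IsTopologicalAddGroup W] [ContinuousSMul ℝ W] {Y : Set X} (hY : IsClosed Y) {J : X → W}
    (hJ : ContinuousOn J Y) {U : Set W} (hU : U ∈ 𝓝 0) : ∃ t, Pos t ∧ ∀ v ∈ Wd t,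
      (∀ x ∉ Y, v x = 0) → linearCombination ℝ J v ∈ U := by
  choose! h h1 h2 using fun U : Set W => exists_nhds_zero_half (s := U)
  let O : ℕ → Set W := fun n => h^[n] U
  have hO (n) : O n ∈ 𝓝 0 := by
    induction n with
    | zero => exact hU
    | succ n ih => simpa only [O, Function.iterate_succ_apply'] using h1 _ ih
  choose r r0 r1 r2 r3 using fun n => radius hY hJ (hO (n + 1))
  let s : ℕ → X → ℝ := fun n => Nat.rec (r 0) (fun n f x => min (r (n + 1) x) (f x / 18)) n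
  have s0 : Pos s := fun n x => by
    induction n with
    | zero => exact r0 0 x
    | succ n ih => exact lt_min (r0 _ _) (by positivity)
  have sr (n x) : s n x ≤ r n x := n.casesOn le_rfl fun _ => min_le_left _ _
  have s2 (n x y) : s n x ≤ s n y + dist x y := by
    induction n with
    | zero => exact r2 0 x y
    | succ n ih =>
      rw [← sub_le_iff_le_add]
      refine le_min (by linarith [sr (n + 1) x, r2 (n + 1) x y]) ?_
      linarith [(min_le_right _ _ : s (n + 1) x ≤ s n x / 18), dist_nonneg (x := x) (y := y)]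
  have s3 (m n x) (h : m < n) : s n x ≤ s m x / 18 := by
    induction h with
    | refl => exact min_le_right _ _
    | @step n _ ih => linarith [(min_le_right _ _ : s (n + 1) x ≤ s n x / 18), s0 n x]
  refine ⟨fun n x => (1 / 2) ^ n / 4 * s n x, fun n x => mul_pos (by positivity) (s0 n x), ?_⟩
  rintro _ ⟨N, f, hf, rfl⟩ hv
  choose x y a b e1 e2 e3 e4 using hf
  rw [← add_zero (linearCombination ℝ J _)]
  refine main Y J O (fun n => by simpa only [O, Function.iterate_succ_apply'] using h2 _ (hO n))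
    (fun n => mem_of_mem_nhds (hO n)) s s0 (fun n x => (sr n x).trans (r1 n x)) s2 s3
    (fun n c y hy z hz a b h1 h2 h3 h4 => r3 n c y hy z hz a b
      (by linarith [sr n c, s0 n c]) (by linarith [sr n c, s0 n c]) h3
      (by linarith [sr n c, s0 n c])) x N x y a b _ (fun m _ => ?_) (fun F hF => ?_) 0
      (mem_of_mem_nhds (hO N))
  · have h3 : (0 : ℝ) < (1 / 2) ^ N := by positivity
    have h4 : (0 : ℝ) < (1 / 2) ^ m := by positivity
    have := mul_pos h3 (s0 m (x m))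
    have := mul_pos h4 (s0 m (x m))
    refine ⟨by linarith [e1 m], by linarith [e2 m], ?_, by linarith [e3 m]⟩
    rw [dist_self]
    linarith
  · trans linearCombination ℝ F (∑ n ∈ Finset.range N, f n)
    · simp [e4]
    · simp only [linearCombination_apply]
      exact Finsupp.sum_congr fun z hz => by
        rw [hF (by_contra fun h => mem_support_iff.1 hz (hv z h))]

end Pool.Agent.H.MP_aab88c_gt
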